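import Pool.Agent.Helper35.CWS.StB

/-!
# Project CWS (MP_a45945_gt), module CMV: the vertex of a cone over a space containing an open disc is moved

The cone over the disc is described by the coordinate `a = r * (1 - 2 * θ)`, `θ = ‖w‖`; the flow is `a ↦ a + s`, with
`r - |a|` fixed.
-/

set_option autoImplicit false
set_option maxHeartbeats 400000

namespace Pool.Agent.Helper60.CWS

open Set Topology Metric Filter Pool.Agent.Helper35.CWS

/-! ### Real functions -/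

private noncomputable def Aa (θ r : ℝ) : ℝ := r * (1 - 2 * θ)

private noncomputable def Rr (s θ r : ℝ) : ℝ := r + |Aa θ r + s| - |Aa θ r|

private noncomputable def Th (s θ r : ℝ) : ℝ := (1 - (Aa θ r + s) / Rr s θ r) / 2

private theorem Aa_abs {θ r : ℝ} (h0 : 0 ≤ θ) (h1 : θ ≤ 1) (hr : 0 ≤ r) : |Aa θ r| ≤ r := by
  unfold Aa
  rw [abs_mul, abs_of_nonneg hr]
  have : |1 - 2 * θ| ≤ 1 := by
    rw [abs_le]
    constructor <;> linarith
  calc r * |1 - 2 * θ| ≤ r * 1 := mul_le_mul_of_nonneg_left this hr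
    _ = r := mul_one r

private theorem Rr_ge {s θ r : ℝ} (h0 : 0 ≤ θ) (h1 : θ ≤ 1) (hr : 0 ≤ r) : |Aa θ r + s| ≤ Rr s θ r := by
  have := Aa_abs h0 h1 hr
  unfold Rr
  linarith

private theorem Rr_nonneg {s θ r : ℝ} (h0 : 0 ≤ θ) (h1 : θ ≤ 1) (hr : 0 ≤ r) : 0 ≤ Rr s θ r :=
  (abs_nonneg _).trans (Rr_ge h0 h1 hr)

private theorem Rr_le {s θ r : ℝ} (hs : 0 ≤ s) : Rr s θ r ≤ r + s := by
  unfold Rr
  have h := abs_add_le (Aa θ r) s
  rw [abs_of_nonneg hs] at h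
  linarith

private theorem Th_mem {s θ r : ℝ} (h0 : 0 ≤ θ) (h1 : θ ≤ 1) (hr : 0 ≤ r) (hR : Rr s θ r ≠ 0) :
    0 ≤ Th s θ r ∧ Th s θ r ≤ 1 := by
  have hR0 : 0 < Rr s θ r := lt_of_le_of_ne (Rr_nonneg h0 h1 hr) (Ne.symm hR)
  have h := Rr_ge (s := s) h0 h1 hr
  rw [abs_le] at h
  have h2 : (Aa θ r + s) / Rr s θ r ≤ 1 := (div_le_one hR0).2 h.2
  have h3 : -1 ≤ (Aa θ r + s) / Rr s θ r := by
    rw [le_div_iff₀ hR0]
    linarith [h.1]
  unfold Th
  constructor <;> linarith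

private theorem Aa_Th {s θ r : ℝ} (hR : Rr s θ r ≠ 0) : Aa (Th s θ r) (Rr s θ r) = Aa θ r + s := by
  unfold Th
  generalize Aa θ r + s = a at *
  generalize Rr s θ r = R at *
  unfold Aa
  field_simp
  ring

private theorem Rr_Rr {s s' θ r : ℝ} (hR : Rr s' θ r ≠ 0) :
    Rr s (Th s' θ r) (Rr s' θ r) = Rr (s + s') θ r := by
  have h := Aa_Th hR
  unfold Rr at hR h ⊢
  rw [h]
  have e : Aa θ r + s' + s = Aa θ r + (s + s') := by ring
  rw [e]
  ring

private theorem Th_Th {s s' θ r : ℝ} (hR : Rr s' θ r ≠ 0) :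
    Th s (Th s' θ r) (Rr s' θ r) = Th (s + s') θ r := by
  have h1 := Rr_Rr (s := s) hR
  have h2 := Aa_Th hR
  unfold Th at h1 h2 ⊢
  rw [h1, h2]
  have e : Aa θ r + s' + s = Aa θ r + (s + s') := by ring
  rw [e]

private theorem Rr_zero {s r : ℝ} (hs : 0 ≤ s) (hr : 0 ≤ r) : Rr s 0 r = r + s := by
  unfold Rr Aa
  rw [mul_zero, sub_zero, mul_one, abs_of_nonneg (add_nonneg hr hs), abs_of_nonneg hr]
  ring

private theorem Th_zero {s r : ℝ} (hs : 0 ≤ s) (hr : 0 ≤ r) (h : Rr s 0 r ≠ 0) : Th s 0 r = 0 := by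
  unfold Th
  rw [Rr_zero hs hr] at h ⊢
  unfold Aa
  rw [mul_zero, sub_zero, mul_one, div_self h]
  norm_num

private theorem Rr_one {s r : ℝ} (hr : 0 ≤ r) : Rr s 1 r = |s - r| := by
  unfold Rr Aa
  have e1 : r * (1 - 2 * 1) = -r := by ring
  rw [e1, abs_neg, abs_of_nonneg hr]
  have e2 : -r + s = s - r := by ring
  rw [e2]
  ring

private theorem Th_one_lt {s r : ℝ} (hr : 0 ≤ r) (h : s < r) : Th s 1 r = 1 := by
  unfold Th
  rw [Rr_one hr, abs_of_neg (by linarith)]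
  unfold Aa
  have e : (r * (1 - 2 * 1) + s) / -(s - r) = -1 := by
    rw [div_eq_iff (by linarith)]
    ring
  rw [e]
  norm_num

private theorem Th_one_gt {s r : ℝ} (hr : 0 ≤ r) (h : r < s) : Th s 1 r = 0 := by
  unfold Th
  rw [Rr_one hr, abs_of_pos (by linarith)]
  unfold Aa
  have e : (r * (1 - 2 * 1) + s) / (s - r) = 1 := by
    rw [div_eq_iff (by linarith)]
    ring
  rw [e]
  norm_num

private theorem Rr_s0 {θ r : ℝ} : Rr 0 θ r = r := by
  unfold Rr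
  rw [add_zero]
  ring

private theorem Th_s0 {θ r : ℝ} (hr : r ≠ 0) : Th 0 θ r = θ := by
  unfold Th
  rw [Rr_s0]
  unfold Aa
  field_simp
  ring

private theorem Rr_r0 {s θ : ℝ} (hs : 0 ≤ s) : Rr s θ 0 = s := by
  unfold Rr Aa
  simp only [zero_mul, zero_add, abs_zero, abs_of_nonneg hs, sub_zero]

private theorem Th_r0 {s θ : ℝ} (hs : 0 < s) : Th s θ 0 = 0 := by
  unfold Th
  rw [Rr_r0 hs.le]
  unfold Aa
  rw [zero_mul, zero_add, div_self hs.ne']
  norm_num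

/-- if the vertex is reached at time `s'` -/
private theorem Rr_vertex {s s' θ r : ℝ} (h0 : 0 ≤ θ) (h1 : θ ≤ 1) (hr : 0 ≤ r) (hs : 0 ≤ s)
    (hR : Rr s' θ r = 0) : Rr (s + s') θ r = s ∧ (0 < s → Th (s + s') θ r = 0) := by
  have h2 := Rr_ge (s := s') h0 h1 hr
  rw [hR] at h2
  have h3 : Aa θ r + s' = 0 := abs_eq_zero.1 (le_antisymm h2 (abs_nonneg _))
  have h4 : Rr (s + s') θ r = s := by
    unfold Rr at hR ⊢
    rw [h3, abs_zero] at hR
    have e : Aa θ r + (s + s') = s := by linarith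
    rw [e, abs_of_nonneg hs]
    linarith
  refine ⟨h4, fun hs0 => ?_⟩
  unfold Th
  rw [h4]
  have e : Aa θ r + (s + s') = s := by linarith
  rw [e, div_self hs0.ne']
  norm_num

private theorem Rr_cont {P : Type} [TopologicalSpace P] {f g k : P → ℝ} {B : Set P} (hf : ContinuousOn f B)
    (hg : ContinuousOn g B) (hk : ContinuousOn k B) : ContinuousOn (fun p => Rr (f p) (g p) (k p)) B := by
  unfold Rr Aa
  fun_prop

private theorem Th_cont {P : Type} [TopologicalSpace P] {f g k : P → ℝ} {B : Set P} (hf : ContinuousOn f B)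
    (hg : ContinuousOn g B) (hk : ContinuousOn k B) (hR : ∀ p ∈ B, Rr (f p) (g p) (k p) ≠ 0) :
    ContinuousOn (fun p => Th (f p) (g p) (k p)) B := by
  have h := Rr_cont hf hg hk
  unfold Th
  have h2 : ContinuousOn (fun p => Aa (g p) (k p) + f p) B := by
    unfold Aa
    fun_prop
  exact (continuousOn_const.sub (h2.div h hR)).div_const 2

/-! ### General topology -/

private theorem paste {P T : Type} [TopologicalSpace P] [TopologicalSpace T] {f : P → T} {B C₁ C₂ : Set P}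
    (hC₁ : IsClosed C₁) (hC₂ : IsClosed C₂) (hB : B ⊆ C₁ ∪ C₂) (h₁ : ContinuousOn f (B ∩ C₁))
    (h₂ : ContinuousOn f (B ∩ C₂)) : ContinuousOn f B := by
  intro p hp
  have e : B = (B ∩ C₁) ∪ (B ∩ C₂) := by
    ext q
    constructor
    · intro hq
      rcases hB hq with h | h
      · exact Or.inl ⟨hq, h⟩
      · exact Or.inr ⟨hq, h⟩
    · rintro (h | h)
      · exact h.1
      · exact h.1
  rw [e]
  apply ContinuousWithinAt.union
  · by_cases h : p ∈ C₁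
    · exact h₁ p ⟨hp, h⟩
    · apply continuousWithinAt_of_notMem_closure
      intro hc
      exact h (closure_minimal inter_subset_right hC₁ hc)
  · by_cases h : p ∈ C₂
    · exact h₂ p ⟨hp, h⟩
    · apply continuousWithinAt_of_notMem_closure
      intro hc
      exact h (closure_minimal inter_subset_right hC₂ hc)

private theorem psi_cont {P : Type} [TopologicalSpace P] {t : P → ℝ} {u : P → ℂ} {B : Set P}
    (ht : ContinuousOn t B) (hu : ContinuousOn u B) (h : ∀ p ∈ B, u p = 0 → t p = 0) :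
    ContinuousOn (fun p => (t p / ‖u p‖) • u p) B := by
  intro p hp
  by_cases hup : u p = 0
  · have htp := h p hp hup
    show Tendsto (fun p => (t p / ‖u p‖) • u p) (𝓝[B] p) (𝓝 ((t p / ‖u p‖) • u p))
    rw [hup, smul_zero]
    apply squeeze_zero_norm' (a := fun q => |t q|)
    · filter_upwards with q
      rw [norm_smul, norm_div, Real.norm_eq_abs, norm_norm]
      by_cases hq : ‖u q‖ = 0
      · rw [hq, mul_zero]
        exact abs_nonneg _
      · rw [div_mul_cancel₀ _ hq]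
    · have h1 : Tendsto (fun q => |t q|) (𝓝[B] p) (𝓝 |t p|) := (ht p hp).abs
      rw [htp, abs_zero] at h1
      exact h1
  · exact ((ht p hp).div (hu p hp).norm (norm_ne_zero_iff.2 hup)).smul (hu p hp)

private theorem tube {X L P : Type} [TopologicalSpace X] [TopologicalSpace L] [CompactSpace L] [TopologicalSpace P]
    {h : L × ℝ → X} {x : X} (hc : ContinuousOn h (univ ×ˢ Ico (0 : ℝ) 1)) (hx : ∀ l, h (l, 0) = x)
    {l : P → L} {ρ : P → ℝ} {B : Set P} (hρ : ContinuousOn ρ B) (hm : ∀ p ∈ B, ρ p ∈ Ico (0 : ℝ) 1)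
    (hl : ContinuousOn l (B ∩ {p | ρ p ≠ 0})) : ContinuousOn (fun p => h (l p, ρ p)) B := by
  intro p hp
  by_cases hρp : ρ p = 0
  · show Tendsto (fun p => h (l p, ρ p)) (𝓝[B] p) (𝓝 (h (l p, ρ p)))
    rw [hρp, hx]
    intro U hU
    have h1 : ∀ y ∈ (univ : Set L), ∀ᶠ z : ℝ × L in 𝓝 ((0 : ℝ), y), z.1 ∈ Ico (0 : ℝ) 1 → h (z.2, z.1) ∈ U := by
      intro y _
      have h2 := hc (y, 0) ⟨mem_univ _, le_rfl, one_pos⟩
      have h3 : h ⁻¹' U ∈ 𝓝[univ ×ˢ Ico (0 : ℝ) 1] (y, (0 : ℝ)) := by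
        apply h2
        rw [hx]
        exact hU
      rw [mem_nhdsWithin_iff_eventually] at h3
      have h4 : Tendsto (Prod.swap : ℝ × L → L × ℝ) (𝓝 ((0 : ℝ), y)) (𝓝 (y, (0 : ℝ))) :=
        continuous_swap.tendsto _
      filter_upwards [h4.eventually h3] with z hz hz1
      exact hz ⟨mem_univ _, hz1⟩
    have h5 := isCompact_univ.eventually_forall_of_forall_eventually
      (P := fun (r : ℝ) (l : L) => r ∈ Ico (0 : ℝ) 1 → h (l, r) ∈ U) h1
    have h6 : Tendsto ρ (𝓝[B] p) (𝓝 (ρ p)) := hρ p hp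
    rw [hρp] at h6
    rw [mem_map]
    filter_upwards [h6.eventually h5, self_mem_nhdsWithin] with q hq hqB
    exact hq (l q) (mem_univ _) (hm q hqB)
  · have h1 : B ∩ {p | ρ p ≠ 0} ∈ 𝓝[B] p := by
      apply inter_mem self_mem_nhdsWithin
      exact (hρ p hp).eventually_ne hρp
    have h2 : ContinuousWithinAt (fun p => h (l p, ρ p)) (B ∩ {p | ρ p ≠ 0}) p := by
      have h3 : ContinuousWithinAt (fun p => (l p, ρ p)) (B ∩ {p | ρ p ≠ 0}) p :=
        (hl p ⟨hp, hρp⟩).prodMk ((hρ p hp).mono inter_subset_left)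
      have h4 := hc (l p, ρ p) ⟨mem_univ _, hm p hp⟩
      exact h4.comp (f := fun p => (l p, ρ p)) h3 (fun q hq => ⟨mem_univ _, hm q hq.1⟩)
    exact h2.mono_of_mem_nhdsWithin h1

/-! ### The cone -/

variable {L : Type} [TopologicalSpace L]

open Classical in
private noncomputable def th (d : ℂ → L) (σ : L → ℂ) (l : L) : ℝ :=
  if l ∈ d '' closedBall 0 1 then ‖σ l‖ else 1

private noncomputable def rho (d : ℂ → L) (σ : L → ℂ) (p : ℝ × (L × ℝ)) : ℝ :=
  Rr p.1 (th d σ p.2.1) p.2.2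

open Classical in
private noncomputable def lam (d : ℂ → L) (σ : L → ℂ) (p : ℝ × (L × ℝ)) : L :=
  if p.2.1 ∈ d '' closedBall 0 1 then d ((Th p.1 (th d σ p.2.1) p.2.2 / ‖σ p.2.1‖) • σ p.2.1)
  else if p.1 < p.2.2 then p.2.1 else d 0

private theorem th_range {d : ℂ → L} {σ : L → ℂ} (hσ : ∀ w ∈ closedBall (0 : ℂ) 1, σ (d w) = w) (l : L) :
    0 ≤ th d σ l ∧ th d σ l ≤ 1 := by
  unfold th
  split_ifs with h
  · obtain ⟨w, hw, rfl⟩ := h
    rw [hσ w hw]
    exact ⟨norm_nonneg _, by simpa using hw⟩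
  · exact ⟨zero_le_one, le_rfl⟩

private theorem th_d {d : ℂ → L} {σ : L → ℂ} (hσ : ∀ w ∈ closedBall (0 : ℂ) 1, σ (d w) = w) {w : ℂ}
    (hw : w ∈ closedBall (0 : ℂ) 1) : th d σ (d w) = ‖w‖ := by
  unfold th
  rw [if_pos ⟨w, hw, rfl⟩, hσ w hw]

/-- outside the open disc -/
private theorem th_out {d : ℂ → L} {σ : L → ℂ} (hσ : ∀ w ∈ closedBall (0 : ℂ) 1, σ (d w) = w) {l : L}
    (hl : l ∉ d '' ball 0 1) : th d σ l = 1 := by
  by_cases h : l ∈ d '' closedBall 0 1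
  · obtain ⟨w, hw, rfl⟩ := h
    rw [th_d hσ hw]
    have h1 : ‖w‖ ≤ 1 := by simpa using hw
    refine le_antisymm h1 ?_
    by_contra hc
    push Not at hc
    exact hl ⟨w, by simpa using hc, rfl⟩
  · unfold th
    rw [if_neg h]

private theorem w_mem {t : ℝ} (ht : 0 ≤ t) (ht1 : t ≤ 1) (w : ℂ) : (t / ‖w‖) • w ∈ closedBall (0 : ℂ) 1 := by
  rw [mem_closedBall_zero_iff, norm_smul, norm_div, Real.norm_eq_abs, norm_norm, abs_of_nonneg ht]
  by_cases hq : ‖w‖ = 0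
  · rw [hq, mul_zero]
    exact zero_le_one
  · rw [div_mul_cancel₀ _ hq]
    exact ht1

/-- `lam` for points outside the open disc -/
private theorem lam_out {d : ℂ → L} {σ : L → ℂ} (hσ : ∀ w ∈ closedBall (0 : ℂ) 1, σ (d w) = w) {s r : ℝ} {l : L}
    (hr : 0 ≤ r) (hsr : s ≠ r) (hl : l ∉ d '' ball 0 1) :
    lam d σ (s, (l, r)) = if s < r then l else d 0 := by
  unfold lam
  by_cases h : l ∈ d '' closedBall 0 1
  · simp only [if_pos h]
    have h1 := th_out hσ hl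
    obtain ⟨w, hw, rfl⟩ := h
    rw [h1, hσ w hw]
    have h2 : ‖w‖ = 1 := by rw [← th_d hσ hw, h1]
    rw [h2, div_one]
    by_cases hs : s < r
    · rw [if_pos hs, Th_one_lt hr hs, one_smul]
    · rw [if_neg hs, Th_one_gt hr (lt_of_le_of_ne (not_lt.1 hs) (Ne.symm hsr)), zero_smul]
  · simp only [if_neg h]

private theorem th_cont {d : ℂ → L} {σ : L → ℂ} (hD : IsClosed (d '' closedBall 0 1)) (hD₀ : IsOpen (d '' ball 0 1))
    (hσ : ∀ w ∈ closedBall (0 : ℂ) 1, σ (d w) = w) (hσc : ContinuousOn σ (d '' closedBall 0 1)) :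
    Continuous (th d σ) := by
  rw [← continuousOn_univ]
  apply paste hD hD₀.isClosed_compl
  · intro l _
    by_cases h : l ∈ d '' ball 0 1
    · exact Or.inl (image_mono ball_subset_closedBall h)
    · exact Or.inr h
  · rw [univ_inter]
    refine ContinuousOn.congr hσc.norm fun l hl => ?_
    unfold th
    rw [if_pos hl]
  · rw [univ_inter]
    refine ContinuousOn.congr (f := fun _ => (1 : ℝ)) continuousOn_const fun l hl => ?_
    exact th_out hσ hl

/-- the domain -/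
private def Dm (L : Type) : Set (ℝ × (L × ℝ)) := Icc (0 : ℝ) (1 / 4) ×ˢ (univ ×ˢ Ico (0 : ℝ) (1 / 2))

private theorem Dm_mem {p : ℝ × (L × ℝ)} (hp : p ∈ Dm L) : 0 ≤ p.1 ∧ p.1 ≤ 1 / 4 ∧ 0 ≤ p.2.2 ∧ p.2.2 < 1 / 2 := by
  unfold Dm at hp
  rw [mem_prod, mem_prod, mem_Icc, mem_Ico] at hp
  exact ⟨hp.1.1, hp.1.2, hp.2.2.1, hp.2.2.2⟩

private theorem rho_mem {d : ℂ → L} {σ : L → ℂ} (hσ : ∀ w ∈ closedBall (0 : ℂ) 1, σ (d w) = w)
    (p : ℝ × (L × ℝ)) (hp : p ∈ Dm L) : rho d σ p ∈ Ico (0 : ℝ) 1 := by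
  obtain ⟨h1, h2, h3, h4⟩ := Dm_mem hp
  have h5 := th_range hσ p.2.1
  have h6 : Rr p.1 (th d σ p.2.1) p.2.2 ≤ p.2.2 + p.1 := Rr_le h1
  rw [mem_Ico]
  unfold rho
  exact ⟨Rr_nonneg h5.1 h5.2 h3, by linarith⟩

private theorem lam_cont1 {d : ℂ → L} {σ : L → ℂ} {B : Set (ℝ × (L × ℝ))} (hd : ContinuousOn d (closedBall 0 1))
    (hσ : ∀ w ∈ closedBall (0 : ℂ) 1, σ (d w) = w) (hσc : ContinuousOn σ (d '' closedBall 0 1))
    (hth : Continuous (th d σ))
    (h1 : ∀ p ∈ B, 0 ≤ p.1) (h2 : ∀ p ∈ B, 0 ≤ p.2.2)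
    (h3 : ∀ p ∈ B, Rr p.1 (th d σ p.2.1) p.2.2 ≠ 0) (h4 : ∀ p ∈ B, p.2.1 ∈ d '' closedBall 0 1) :
    ContinuousOn (lam d σ) B := by
  have c21 : Continuous fun p : ℝ × (L × ℝ) => p.2.1 := continuous_fst.comp continuous_snd
  have c22 : Continuous fun p : ℝ × (L × ℝ) => p.2.2 := continuous_snd.comp continuous_snd
  have hT : ContinuousOn (fun p : ℝ × (L × ℝ) => Th p.1 (th d σ p.2.1) p.2.2) B :=
    Th_cont continuous_fst.continuousOn (hth.comp c21).continuousOn c22.continuousOn h3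
  have hS : ContinuousOn (fun p : ℝ × (L × ℝ) => σ p.2.1) B := hσc.comp c21.continuousOn h4
  have hF : ContinuousOn (fun p : ℝ × (L × ℝ) => (Th p.1 (th d σ p.2.1) p.2.2 / ‖σ p.2.1‖) • σ p.2.1) B := by
    apply psi_cont hT hS
    intro p hp h0
    have h5 : th d σ p.2.1 = 0 := by
      unfold th
      rw [if_pos (h4 p hp), h0, norm_zero]
    have h6 := h3 p hp
    rw [h5] at h6 ⊢
    exact Th_zero (h1 p hp) (h2 p hp) h6
  have hM : MapsTo (fun p : ℝ × (L × ℝ) => (Th p.1 (th d σ p.2.1) p.2.2 / ‖σ p.2.1‖) • σ p.2.1) B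
      (closedBall (0 : ℂ) 1) := by
    intro p hp
    have h5 := th_range hσ p.2.1
    have h6 := Th_mem h5.1 h5.2 (h2 p hp) (h3 p hp)
    exact w_mem h6.1 h6.2 (σ p.2.1)
  have hG := hd.comp hF hM
  refine hG.congr ?_
  intro p hp
  unfold lam
  rw [if_pos (h4 p hp)]
  rfl

private theorem lam_cont2 {d : ℂ → L} {σ : L → ℂ} {B : Set (ℝ × (L × ℝ))}
    (key : ∀ q ∈ B, q.1 ≠ q.2.2 ∧ lam d σ q = if q.1 < q.2.2 then q.2.1 else d 0) :
    ContinuousOn (lam d σ) B := by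
  have c21 : Continuous fun p : ℝ × (L × ℝ) => p.2.1 := continuous_fst.comp continuous_snd
  have c22 : Continuous fun p : ℝ × (L × ℝ) => p.2.2 := continuous_snd.comp continuous_snd
  intro p hp
  obtain ⟨hne, hlam⟩ := key p hp
  rcases lt_or_gt_of_ne hne with h | h
  · have h12 : ContinuousWithinAt (fun q : ℝ × (L × ℝ) => q.2.1) B p := c21.continuousWithinAt
    have h13 : ∀ᶠ q : ℝ × (L × ℝ) in 𝓝 p, q.1 < q.2.2 :=
      (continuous_fst.tendsto p).eventually_lt (c22.tendsto p) h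
    refine h12.congr_of_eventuallyEq ?_ ?_
    · filter_upwards [self_mem_nhdsWithin, mem_nhdsWithin_of_mem_nhds h13] with q hq hq2
      rw [(key q hq).2, if_pos hq2]
    · rw [hlam, if_pos h]
  · have h12 : ContinuousWithinAt (fun _ : ℝ × (L × ℝ) => d 0) B p := continuousWithinAt_const
    have h13 : ∀ᶠ q : ℝ × (L × ℝ) in 𝓝 p, q.2.2 < q.1 :=
      (c22.tendsto p).eventually_lt (continuous_fst.tendsto p) h
    refine h12.congr_of_eventuallyEq ?_ ?_
    · filter_upwards [self_mem_nhdsWithin, mem_nhdsWithin_of_mem_nhds h13] with q hq hq2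
      rw [(key q hq).2, if_neg (not_lt.2 (le_of_lt hq2))]
    · rw [hlam, if_neg (not_lt.2 (le_of_lt h))]

private theorem lam_cont {d : ℂ → L} {σ : L → ℂ} (hd : ContinuousOn d (closedBall 0 1))
    (hD : IsClosed (d '' closedBall 0 1)) (hD₀ : IsOpen (d '' ball 0 1))
    (hσ : ∀ w ∈ closedBall (0 : ℂ) 1, σ (d w) = w) (hσc : ContinuousOn σ (d '' closedBall 0 1)) :
    ContinuousOn (lam d σ) (Dm L ∩ {p | rho d σ p ≠ 0}) := by
  have hth := th_cont hD hD₀ hσ hσc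
  have c21 : Continuous fun p : ℝ × (L × ℝ) => p.2.1 := continuous_fst.comp continuous_snd
  have hm : ∀ p ∈ Dm L ∩ {p | rho d σ p ≠ 0}, p ∈ Dm L ∧ Rr p.1 (th d σ p.2.1) p.2.2 ≠ 0 := fun p hp => hp
  generalize hBB : Dm L ∩ {p | rho d σ p ≠ 0} = BB at hm ⊢
  apply paste (hD.preimage c21) (hD₀.isClosed_compl.preimage c21)
  · intro p _
    by_cases h : p.2.1 ∈ d '' ball 0 1
    · exact Or.inl (image_mono ball_subset_closedBall h)
    · exact Or.inr h
  · apply lam_cont1 hd hσ hσc hth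
    · intro p hp
      exact (Dm_mem (hm p hp.1).1).1
    · intro p hp
      exact (Dm_mem (hm p hp.1).1).2.2.1
    · intro p hp
      exact (hm p hp.1).2
    · intro p hp
      exact hp.2
  · apply lam_cont2
    intro q hq
    have h8 : q.2.1 ∉ d '' ball 0 1 := hq.2
    have h9 := th_out hσ h8
    have h10 := (hm q hq.1).2
    have h0 := (Dm_mem (hm q hq.1).1).2.2.1
    rw [h9, Rr_one h0] at h10
    have h11 : q.1 ≠ q.2.2 := fun h => h10 (by rw [h, sub_self, abs_zero])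
    exact ⟨h11, lam_out hσ h0 h11 h8⟩

private theorem lam_in {d : ℂ → L} {σ : L → ℂ} (hσ : ∀ w ∈ closedBall (0 : ℂ) 1, σ (d w) = w) {w : ℂ}
    (hw : w ∈ closedBall (0 : ℂ) 1) (s r : ℝ) :
    lam d σ (s, (d w, r)) = d ((Th s ‖w‖ r / ‖w‖) • w) := by
  unfold lam
  have h1 : d w ∈ d '' closedBall 0 1 := ⟨w, hw, rfl⟩
  simp only [if_pos h1]
  rw [th_d hσ hw, hσ w hw]

private theorem zero_mem : (0 : ℂ) ∈ closedBall (0 : ℂ) 1 := by simp

private theorem lam_zero {d : ℂ → L} {σ : L → ℂ} (hσ : ∀ w ∈ closedBall (0 : ℂ) 1, σ (d w) = w) (s r : ℝ) :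
    lam d σ (s, (d 0, r)) = d 0 := by
  rw [lam_in hσ zero_mem, smul_zero]

private theorem lam_notin {d : ℂ → L} {σ : L → ℂ} {l : L} (hl : l ∉ d '' closedBall 0 1) (s r : ℝ) :
    lam d σ (s, (l, r)) = if s < r then l else d 0 := by
  unfold lam
  simp only [if_neg hl]

private theorem th_notin {d : ℂ → L} {σ : L → ℂ} {l : L} (hl : l ∉ d '' closedBall 0 1) : th d σ l = 1 := by
  unfold th
  rw [if_neg hl]

/-- the motion of the vertex -/
private theorem g_r0 {X : Type} {x : X} {h : L × ℝ → X} (hx : ∀ l, h (l, 0) = x) {d : ℂ → L} {σ : L → ℂ}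
    (hσ : ∀ w ∈ closedBall (0 : ℂ) 1, σ (d w) = w) {s : ℝ} (hs : 0 ≤ s) (l : L) :
    h (lam d σ (s, (l, 0)), rho d σ (s, (l, 0))) = h (d 0, s) := by
  have h1 : rho d σ (s, (l, 0)) = s := Rr_r0 hs
  rw [h1]
  rcases hs.eq_or_lt with h2 | h2
  · rw [← h2, hx, hx]
  · by_cases hl : l ∈ d '' closedBall 0 1
    · obtain ⟨w, hw, rfl⟩ := hl
      rw [lam_in hσ hw, Th_r0 h2, zero_div, zero_smul]
    · rw [lam_notin hl, if_neg (not_lt.2 hs)]

/-- the semiflow law upstairs -/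
private theorem g_add {X : Type} {x : X} {h : L × ℝ → X} (hx : ∀ l, h (l, 0) = x) {d : ℂ → L} {σ : L → ℂ}
    (hσ : ∀ w ∈ closedBall (0 : ℂ) 1, σ (d w) = w) {s s' r : ℝ} (hs : 0 ≤ s) (hs' : 0 ≤ s') (hr : 0 ≤ r) (l : L) :
    h (lam d σ (s, (lam d σ (s', (l, r)), rho d σ (s', (l, r)))),
      rho d σ (s, (lam d σ (s', (l, r)), rho d σ (s', (l, r))))) =
    h (lam d σ (s + s', (l, r)), rho d σ (s + s', (l, r))) := by
  obtain ⟨ht0, ht1⟩ := th_range hσ l
  by_cases hR : Rr s' (th d σ l) r = 0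
  · have h1 : rho d σ (s', (l, r)) = 0 := hR
    obtain ⟨h2, h3⟩ := Rr_vertex ht0 ht1 hr hs hR
    have h4 : rho d σ (s + s', (l, r)) = s := h2
    rw [h1, g_r0 hx hσ hs, h4]
    rcases hs.eq_or_lt with h5 | h5
    · rw [← h5, hx, hx]
    · have h6 := h3 h5
      by_cases hl : l ∈ d '' closedBall 0 1
      · obtain ⟨w, hw, rfl⟩ := hl
        rw [th_d hσ hw] at h6
        rw [lam_in hσ hw, h6, zero_div, zero_smul]
      · rw [th_notin hl, Rr_one hr, abs_eq_zero, sub_eq_zero] at hR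
        rw [lam_notin hl, if_neg]
        linarith
  · have hth1 : th d σ (lam d σ (s', (l, r))) = Th s' (th d σ l) r := by
      by_cases hl : l ∈ d '' closedBall 0 1
      · obtain ⟨w, hw, rfl⟩ := hl
        rw [th_d hσ hw] at hR ht0 ht1 ⊢
        have hm := Th_mem ht0 ht1 hr hR
        rw [lam_in hσ hw, th_d hσ (w_mem hm.1 hm.2 w), norm_smul, norm_div, Real.norm_eq_abs, norm_norm,
          abs_of_nonneg hm.1]
        by_cases hq : ‖w‖ = 0
        · rw [hq] at hR ⊢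
          rw [Th_zero hs' hr hR, mul_zero]
        · rw [div_mul_cancel₀ _ hq]
      · rw [th_notin hl, Rr_one hr] at hR
        rw [th_notin hl, lam_notin hl]
        have hne : s' ≠ r := fun h => hR (by rw [h, sub_self, abs_zero])
        rcases lt_or_gt_of_ne hne with h5 | h5
        · rw [if_pos h5, Th_one_lt hr h5, th_notin hl]
        · rw [if_neg (not_lt.2 h5.le), Th_one_gt hr h5, th_d hσ zero_mem, norm_zero]
    have hrho : rho d σ (s, (lam d σ (s', (l, r)), rho d σ (s', (l, r)))) = rho d σ (s + s', (l, r)) := by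
      show Rr s (th d σ (lam d σ (s', (l, r)))) (Rr s' (th d σ l) r) = Rr (s + s') (th d σ l) r
      rw [hth1, Rr_Rr hR]
    rw [hrho]
    by_cases hR2 : rho d σ (s + s', (l, r)) = 0
    · rw [hR2, hx, hx]
    · congr 2
      by_cases hl : l ∈ d '' closedBall 0 1
      · obtain ⟨w, hw, rfl⟩ := hl
        have hR2' : Rr (s + s') ‖w‖ r ≠ 0 := by
          rw [← th_d hσ hw]
          exact hR2
        have hrho1 : rho d σ (s', (d w, r)) = Rr s' ‖w‖ r := by
          show Rr s' (th d σ (d w)) r = Rr s' ‖w‖ r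
          rw [th_d hσ hw]
        rw [th_d hσ hw] at hR ht0 ht1
        have hm := Th_mem ht0 ht1 hr hR
        rw [lam_in hσ hw, lam_in hσ hw, lam_in hσ (w_mem hm.1 hm.2 w), hrho1]
        have hr1 := Rr_nonneg (s := s') ht0 ht1 hr
        by_cases hq : ‖w‖ = 0
        · have hw0 : w = 0 := norm_eq_zero.1 hq
          rw [hw0, smul_zero, smul_zero, smul_zero]
        · have hn : ‖(Th s' ‖w‖ r / ‖w‖) • w‖ = Th s' ‖w‖ r := by
            rw [norm_smul, norm_div, Real.norm_eq_abs, norm_norm, abs_of_nonneg hm.1, div_mul_cancel₀ _ hq]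
          rw [hn, Th_Th hR]
          by_cases ht : Th s' ‖w‖ r = 0
          · have h7 : Th (s + s') ‖w‖ r = 0 := by
              rw [← Th_Th hR, ht]
              apply Th_zero hs hr1
              have e := Rr_Rr (s := s) hR
              rw [ht] at e
              rw [e]
              exact hR2'
            rw [h7, ht]
            simp only [zero_div, zero_smul, smul_zero]
          · rw [smul_smul]
            congr 2
            field_simp
      · rw [th_notin hl, Rr_one hr] at hR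
        have hne : s' ≠ r := fun h => hR (by rw [h, sub_self, abs_zero])
        have hrho1 : rho d σ (s', (l, r)) = |s' - r| := by
          show Rr s' (th d σ l) r = |s' - r|
          rw [th_notin hl, Rr_one hr]
        rw [hrho1, lam_notin hl, lam_notin hl]
        rcases lt_or_gt_of_ne hne with h5 | h5
        · rw [if_pos h5, lam_notin hl, abs_of_neg (by linarith)]
          by_cases h6 : s + s' < r
          · rw [if_pos h6, if_pos (by linarith)]
          · rw [if_neg h6, if_neg (by linarith)]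
        · rw [if_neg (not_lt.2 h5.le), lam_zero hσ, if_neg]
          linarith

/-- the identity at time `0` -/
private theorem g_s0 {X : Type} {x : X} {h : L × ℝ → X} (hx : ∀ l, h (l, 0) = x) {d : ℂ → L} {σ : L → ℂ}
    (hσ : ∀ w ∈ closedBall (0 : ℂ) 1, σ (d w) = w) {r : ℝ} (hr : 0 ≤ r) (l : L) :
    h (lam d σ (0, (l, r)), rho d σ (0, (l, r))) = h (l, r) := by
  have h1 : rho d σ (0, (l, r)) = r := Rr_s0
  rw [h1]
  rcases hr.eq_or_lt with h2 | h2
  · rw [← h2, hx, hx]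
  · by_cases hl : l ∈ d '' closedBall 0 1
    · obtain ⟨w, hw, rfl⟩ := hl
      rw [lam_in hσ hw, Th_s0 h2.ne']
      by_cases hq : ‖w‖ = 0
      · have hw0 : w = 0 := norm_eq_zero.1 hq
        rw [hw0, smul_zero]
      · rw [div_self hq, one_smul]
    · rw [lam_notin hl, if_pos h2]

/-- the cone is saturated and `W` is open -/
private theorem W_open {X : Type} [TopologicalSpace X] [T2Space X] [LocallyCompactSpace X] {O : Set X} {x : X}
    {h : L × ℝ → X} (hM : MC O {x} L h) (l₀ : L) (hx : ∀ l, h (l, 0) = x) :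
    IsOpen (h '' (univ ×ˢ Ico (0 : ℝ) (1 / 2))) := by
  rw [isOpen_iff_mem_nhds]
  rintro y ⟨⟨l, r⟩, hlr, rfl⟩
  have hr : 0 ≤ r ∧ r < 1 / 2 := by
    rw [mem_prod, mem_Ico] at hlr
    exact hlr.2
  have hyO : h (l, r) ∈ O := hM.hm l r ⟨hr.1, by linarith⟩
  obtain ⟨K, hK, hKO, hKc⟩ := LocallyCompactSpace.local_compact_nhds (h (l, r)) O (hM.oO.mem_nhds hyO)
  have hP := hM.hp K hKO hKc
  have hP' : IsCompact ({p : L × ℝ | p.2 ∈ Ico (0 : ℝ) 1 ∧ h p ∈ K} ∩ (fun p : L × ℝ => p.2) ⁻¹' Ici (1 / 2)) :=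
    hP.inter_right (isClosed_Ici.preimage continuous_snd)
  have hm : ∀ p ∈ {p : L × ℝ | p.2 ∈ Ico (0 : ℝ) 1 ∧ h p ∈ K} ∩ (fun p : L × ℝ => p.2) ⁻¹' Ici (1 / 2),
      0 ≤ p.2 ∧ p.2 < 1 ∧ 1 / 2 ≤ p.2 := fun p hp => ⟨hp.1.1.1, hp.1.1.2, hp.2⟩
  have hcl : IsClosed (h '' ({p : L × ℝ | p.2 ∈ Ico (0 : ℝ) 1 ∧ h p ∈ K} ∩
      (fun p : L × ℝ => p.2) ⁻¹' Ici (1 / 2))) :=
    (hP'.image_of_continuousOn (hM.hc.mono fun p hp => ⟨mem_univ _, (hm p hp).1, (hm p hp).2.1⟩)).isClosed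
  have hy : h (l, r) ∉ h '' ({p : L × ℝ | p.2 ∈ Ico (0 : ℝ) 1 ∧ h p ∈ K} ∩
      (fun p : L × ℝ => p.2) ⁻¹' Ici (1 / 2)) := by
    rintro ⟨⟨l', r'⟩, hp', e⟩
    obtain ⟨h1, h2, h3⟩ := hm _ hp'
    simp only at h1 h2 h3
    rcases hr.1.eq_or_lt with h4 | h4
    · rw [← h4, hx] at e
      have h5 := (hM.hS l' r' ⟨h1, h2⟩).1 e
      linarith
    · have h5 := (hM.hi l' l r' ⟨by linarith, h2⟩ r ⟨h4, by linarith [hr.2]⟩ e).2
      linarith [hr.2]
  filter_upwards [hK, hcl.isOpen_compl.mem_nhds hy] with y' hy1 hy2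
  by_cases hyx : y' = x
  · exact ⟨(l₀, 0), ⟨mem_univ _, le_rfl, by norm_num⟩, by rw [hx, hyx]⟩
  · obtain ⟨l', r', hr', e⟩ := hM.hs y' (hKO hy1) hyx
    by_cases h6 : r' < 1 / 2
    · exact ⟨(l', r'), ⟨mem_univ _, hr'.1.le, h6⟩, e⟩
    · exfalso
      apply hy2
      refine ⟨(l', r'), ⟨⟨⟨hr'.1.le, hr'.2⟩, ?_⟩, not_lt.1 h6⟩, e⟩
      rw [e]
      exact hy1

/-- CMV -/
theorem hCMV : StQUO → StCMV := by
  classical
  intro hQ X _ _ _ O x L _ _ _ h d _hxO hM hd hdi hD₀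
  have hx : ∀ l, h (l, 0) = x := fun l => (hM.hS l 0 ⟨le_rfl, one_pos⟩).2 rfl
  have hnx : ∀ l : L, ∀ r : ℝ, 0 < r → r < 1 → h (l, r) ≠ x := by
    intro l r h1 h2 e
    exact h1.ne' ((hM.hS l r ⟨h1.le, h2⟩).1 e)
  obtain ⟨σ, hσ⟩ : ∃ σ : L → ℂ, ∀ w ∈ closedBall (0 : ℂ) 1, σ (d w) = w :=
    ⟨Function.invFunOn d (closedBall 0 1), fun w hw => hdi.leftInvOn_invFunOn hw⟩
  have hDc : IsCompact (d '' closedBall 0 1) := (isCompact_closedBall (0 : ℂ) 1).image_of_continuousOn hd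
  have hσc : ContinuousOn σ (d '' closedBall 0 1) := by
    have h1 := hQ L ℂ ℂ (closedBall 0 1) (closedBall 0 1) {0} d (fun q => σ q.2) (fun q => q.2)
      (isCompact_closedBall 0 1) Subset.rfl hd (fun z _ z' hz' _ => hz') continuous_snd.continuousOn
      (fun s _ z hz => hσ z hz)
    have h2 : ContinuousOn (fun l : L => ((0 : ℝ), l)) (d '' closedBall 0 1) := by fun_prop
    exact h1.comp h2 (fun l hl => ⟨rfl, hl⟩)
  have hth : Continuous (th d σ) := th_cont hDc.isClosed hD₀ hσ hσc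
  have hrc : ContinuousOn (rho d σ) (Dm L) :=
    Rr_cont continuous_fst.continuousOn (hth.comp (continuous_fst.comp continuous_snd)).continuousOn
      (continuous_snd.comp continuous_snd).continuousOn
  have hg : ContinuousOn (fun p : ℝ × (L × ℝ) => h (lam d σ p, rho d σ p)) (Dm L) :=
    tube hM.hc hx hrc (fun p hp => rho_mem hσ p hp) (lam_cont hd hDc.isClosed hD₀ hσ hσc)
  obtain ⟨τ, hτ1, hτ2⟩ : ∃ τ : X → L × ℝ, (∀ l : L, ∀ r : ℝ, 0 < r → r < 1 → τ (h (l, r)) = (l, r)) ∧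
      τ x = (d 0, 0) := by
    refine ⟨fun y => if hy : ∃ z : L × ℝ, z.2 ∈ Ioo (0 : ℝ) 1 ∧ h z = y then hy.choose else (d 0, 0), ?_, ?_⟩
    · intro l r h1 h2
      have hy : ∃ z : L × ℝ, z.2 ∈ Ioo (0 : ℝ) 1 ∧ h z = h (l, r) := ⟨(l, r), ⟨h1, h2⟩, rfl⟩
      simp only [dif_pos hy]
      obtain ⟨h3, h4⟩ := hy.choose_spec
      obtain ⟨h5, h6⟩ := hM.hi hy.choose.1 l hy.choose.2 h3 r ⟨h1, h2⟩ h4
      exact Prod.ext h5 h6
    · have hy : ¬ ∃ z : L × ℝ, z.2 ∈ Ioo (0 : ℝ) 1 ∧ h z = x := by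
        rintro ⟨⟨l, r⟩, h1, h2⟩
        exact hnx l r h1.1 h1.2 h2
      simp only [dif_neg hy]
  have key : ∀ s : ℝ, 0 ≤ s → ∀ l : L, ∀ r : ℝ, 0 ≤ r → r < 1 →
      h (lam d σ (s, τ (h (l, r))), rho d σ (s, τ (h (l, r)))) =
        h (lam d σ (s, (l, r)), rho d σ (s, (l, r))) := by
    intro s hs l r h1 h2
    rcases h1.eq_or_lt with h3 | h3
    · rw [← h3, hx, hτ2, g_r0 hx hσ hs, g_r0 hx hσ hs]
    · rw [hτ1 l r h3 h2]
  have hW := W_open hM (d 0) hx
  refine ⟨h '' (univ ×ˢ Ico (0 : ℝ) (1 / 2)), 1 / 4,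
    fun s y => h (lam d σ (s, τ y), rho d σ (s, τ y)), hW,
    ⟨(d 0, 0), ⟨mem_univ _, le_rfl, by norm_num⟩, hx _⟩, ?_, ?_⟩
  · refine ⟨subset_univ _, by norm_num, ?_, fun _ _ _ _ => mem_univ _, ?_, ?_⟩
    · apply hQ X (L × ℝ) X (univ ×ˢ Icc (0 : ℝ) (3 / 4)) (univ ×ˢ Ico (0 : ℝ) (1 / 2)) (Icc 0 (1 / 4)) h
        (fun p => h (lam d σ (p.1, τ p.2), rho d σ (p.1, τ p.2)))
        (fun p => h (lam d σ p, rho d σ p)) (isCompact_univ.prod isCompact_Icc)
      · rintro ⟨l, r⟩ ⟨-, h1, h2⟩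
        exact ⟨mem_univ _, h1, by simp only at h2 ⊢; linarith⟩
      · exact hM.hc.mono (fun p hp => ⟨mem_univ _, hp.2.1, by have := hp.2.2; linarith⟩)
      · rintro ⟨l, r⟩ ⟨-, h1, h2⟩ ⟨l', r'⟩ ⟨-, h3, h4⟩ e
        simp only at h1 h2 h3 h4
        refine ⟨mem_univ _, h3, ?_⟩
        simp only
        rcases h3.eq_or_lt with h5 | h5
        · rw [← h5]
          norm_num
        · rcases h1.eq_or_lt with h6 | h6
          · rw [← h6, hx] at e
            exact absurd e (hnx l' r' h5 (by linarith))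
          · have h7 := (hM.hi l' l r' ⟨h5, by linarith⟩ r ⟨h6, by linarith⟩ e).2
            rw [h7]
            exact h2
      · exact hg
      · rintro s ⟨h1, h2⟩ ⟨l, r⟩ ⟨-, h3, h4⟩
        exact key s h1 l r h3 (by simp only at h4; linarith)
    · rintro y ⟨⟨l, r⟩, ⟨-, h1, h2⟩, rfl⟩
      simp only at h1 h2
      show h (lam d σ (0, τ (h (l, r))), rho d σ (0, τ (h (l, r)))) = h (l, r)
      rw [key 0 le_rfl l r h1 (by linarith)]
      exact g_s0 hx hσ h1 l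
    · rintro y ⟨⟨l, r⟩, ⟨-, h1, h2⟩, rfl⟩ s s' hs hs' hss _
      simp only at h1 h2
      show h (lam d σ (s + s', τ (h (l, r))), rho d σ (s + s', τ (h (l, r)))) =
        h (lam d σ (s, τ (h (lam d σ (s', τ (h (l, r))), rho d σ (s', τ (h (l, r)))))),
          rho d σ (s, τ (h (lam d σ (s', τ (h (l, r))), rho d σ (s', τ (h (l, r)))))))
      have hr1 : r < 1 := by linarith
      rw [key s' hs' l r h1 hr1, key (s + s') (add_nonneg hs hs') l r h1 hr1]
      have hm : rho d σ (s', (l, r)) ∈ Ico (0 : ℝ) 1 :=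
        rho_mem hσ (s', (l, r)) ⟨⟨hs', by linarith⟩, mem_univ _, h1, h2⟩
      rw [key s hs _ _ hm.1 hm.2]
      exact (g_add hx hσ hs hs' h1 l).symm
  · intro s hs
    show h (lam d σ (s, τ x), rho d σ (s, τ x)) ≠ x
    rw [hτ2, g_r0 hx hσ hs.1.le]
    exact hnx _ _ hs.1 (by linarith [hs.2])

end Pool.Agent.Helper60.CWS
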